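import Pool.Statements.S12976
import Pool.Agent.Lead.BodyVol

set_option autoImplicit false
open MeasureTheory
open Pool Pool.MP_2fe79c_gt

namespace Pool.Agent.S12976

/-- The negation of the preceding statement: In every R^n, any two bounded regular-open sets with null boundary and equal volume can be cut into finitely many disjoint such pieces whose regular-open union is the first set, which isometries move to disjoint pieces whose regular-open union is the second. -/
theorem result :
    ¬ (∀ n : ℕ, ∀ A B : Set (EuclideanSpace ℝ (Fin n)),
      (Bornology.IsBounded A ∧ interior (closure A) = A ∧ volume (frontier A) = 0) →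
      (Bornology.IsBounded B ∧ interior (closure B) = B ∧ volume (frontier B) = 0) →
      volume A = volume B →
      ∃ k : ℕ, ∃ P : Fin k → Set (EuclideanSpace ℝ (Fin n)),
        ∃ g : Fin k → (EuclideanSpace ℝ (Fin n) ≃ᵢ EuclideanSpace ℝ (Fin n)),
          (∀ i, Bornology.IsBounded (P i) ∧ interior (closure (P i)) = P i ∧
              volume (frontier (P i)) = 0) ∧
          Pairwise (fun i j => Disjoint (P i) (P j)) ∧
          interior (closure (⋃ i, P i)) = A ∧
          Pairwise (fun i j => Disjoint (g i '' P i) (g j '' P j)) ∧
          interior (closure (⋃ i, g i '' P i)) = B) := by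
  intro h
  obtain ⟨A, B, hA, hB, hV, hne⟩ := Geo.LeadVol.euclid_vol
  apply hne
  obtain ⟨k, P, g, h1, h2, h3, h4, h5⟩ := h 1 A B hA hB hV
  exact ⟨k, P, g, h1, h2, h3.symm, h4, h5.symm⟩

end Pool.Agent.S12976
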